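import Mathlib
import Pool.Agent.H28.Dixm

open Filter Topology Complex Pool.Agent.H28 Pool.Agent.H28.L2Ops Pool.Agent.H28.Dixm

noncomputable section

namespace Pool.Agent.Results.MP_4ccfbf_an.Optimal

/-- The Hilbert space `ℓ²(ℕ, ℂ)`; it serves as both `H` and `Y`. -/
def X : Type := lp (fun _ : ℕ => ℂ) 2

instance : NormedAddCommGroup X := (inferInstance : NormedAddCommGroup (lp (fun _ : ℕ => ℂ) 2))
instance : InnerProductSpace ℂ X := (inferInstance : InnerProductSpace ℂ (lp (fun _ : ℕ => ℂ) 2))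
instance : CompleteSpace X := (inferInstance : CompleteSpace (lp (fun _ : ℕ => ℂ) 2))
instance : NormedSpace ℝ X := NormedSpace.complexToReal

/-- Unbounded operators on `X`. -/
abbrev Unb := X →ₗ.[ℂ] X

/-- Bounded operators on `X`. -/
abbrev Bdd := X →L[ℂ] X

/-- `x ∈ D(A)` and `A x = y`. -/
def Maps (A : Unb) (x y : X) : Prop := ∃ h : x ∈ A.domain, A ⟨x, h⟩ = y

/-- The inner product (conjugate linear in the first slot). -/
def ip (x y : X) : ℂ := inner ℂ x y

/-- The adjoint `B⋆`. -/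
def adj (B : Bdd) : Bdd := ContinuousLinearMap.adjoint B

/-- `A` is self-adjoint, nonnegative, and `(A + I)⁻¹` is compact. -/
def Admissible (A : Unb) : Prop :=
  IsSelfAdjoint A ∧ (∀ x y, Maps A x y → 0 ≤ (ip y x).re) ∧
    ∃ R : Bdd, IsCompactOperator R ∧ ∀ y, Maps A (R y) (y - R y)

/-- `u` is a (weak, equivalently mild) solution of `∂ₜu + iAu = 0`. -/
def Schr (A : Unb) (u : ℝ → X) : Prop :=
  Continuous u ∧ ∀ x y, Maps A x y → ∀ t, HasDerivAt (fun s => ip x (u s)) (-I * ip y (u t)) t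

/-- Observability of the Schrödinger system in time `T`. -/
def Observable (A : Unb) (B : Bdd) (T : ℝ) : Prop :=
  ∃ K > 0, ∀ u, Schr A u → ‖u 0‖ ^ 2 ≤ K * ∫ t in (0 : ℝ)..T, ‖adj B (u t)‖ ^ 2

/-- `u` solves `u'' + Au + BB⋆u' = 0` classically, with `v = u'` and `a = Au`. -/
def Wave (A : Unb) (B : Bdd) (u v a : ℝ → X) : Prop :=
  ∀ t, Maps A (u t) (a t) ∧ HasDerivAt u (v t) t ∧ HasDerivAt v (-a t - B (adj B (v t))) t

/-- `|(u₀, u₁)|² = ‖A^{1/2}u₀‖² + ‖u₁‖²`, where `a₀ = Au₀`. -/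
def en (u₀ a₀ u₁ : X) : ℝ := (ip a₀ u₀).re + ‖u₁‖ ^ 2

/-- Stability at rate `f`, tested on solutions with data in `D(A) × D(A)`; the last root is the
graph norm `(‖U₀‖² + ‖𝒜U₀‖²)^{1/2}`, with `c = Au₁`. -/
def Stable (A : Unb) (B : Bdd) (f : ℝ → ℝ) : Prop :=
  ∃ C, ∀ u v a c, Wave A B u v a → Maps A (v 0) c → ∀ t > 0, √(en (u t) (a t) (v t)) ≤
    C * f t * √(en (u 0) (a 0) (v 0) + ‖u 0‖ ^ 2 + en (v 0) c (a 0 + B (adj B (v 0))) + ‖v 0‖ ^ 2)

/-! ### the parameters -/

def s (k : ℕ) : ℝ := 1 / (k + 4)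
def p (k : ℕ) : ℝ := -s k ^ 2 / (2 * (1 - s k ^ 2))
def q (k : ℕ) : ℝ := √(s k - p k ^ 2)
def x (k : ℕ) : ℝ := -s k / (2 * (1 + s k))
def y (k : ℕ) : ℝ := q k * (1 + s k) / s k
def mu (k : ℕ) : ℝ := p k - x k ^ 2 + y k ^ 2
def w (k : ℕ) : ℂ := ⟨p k, -q k⟩
def z (k : ℕ) : ℂ := ⟨x k, y k⟩

lemma s0 (k : ℕ) : 0 < s k := by unfold s; positivity
lemma s1 (k : ℕ) : s k ≤ 1 / 4 := by
  unfold s
  exact one_div_le_one_div_of_le (by norm_num) (by linarith [(k.cast_nonneg : (0 : ℝ) ≤ k)])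
lemma sk (k : ℕ) : s k * (k + 4) = 1 := by unfold s; field_simp
lemma pb (k : ℕ) : -s k ^ 2 ≤ p k ∧ p k ≤ 0 := by
  have := s0 k; have := s1 k
  have h : 0 < 2 * (1 - s k ^ 2) := by nlinarith
  unfold p
  rw [le_div_iff₀ h, div_le_iff₀ h]
  constructor <;> nlinarith [sq_nonneg (s k), mul_pos (pow_pos (s0 k) 2) (by nlinarith : 0 < 1 / 2 - s k ^ 2)]
lemma p2 (k : ℕ) : p k ^ 2 ≤ s k ^ 2 / 16 := by
  have := s0 k; have := s1 k; have := pb k
  have h : p k ^ 2 ≤ (s k ^ 2) ^ 2 := by nlinarith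
  nlinarith [mul_pos (pow_pos (s0 k) 2) (s0 k), pow_pos (s0 k) 2]
lemma q2 (k : ℕ) : q k ^ 2 = s k - p k ^ 2 :=
  Real.sq_sqrt (by have := s0 k; have := s1 k; nlinarith [p2 k])
lemma xb (k : ℕ) : -s k / 2 ≤ x k ∧ x k ≤ 0 := by
  have := s0 k
  have h : 0 < 2 * (1 + s k) := by nlinarith
  unfold x
  rw [le_div_iff₀ h, div_le_iff₀ h]
  constructor <;> nlinarith
lemma y2 (k : ℕ) : k + 4 - 1 / 16 ≤ y k ^ 2 ∧ y k ^ 2 ≤ 2 * (k + 4) := by
  have h0 := s0 k; have := s1 k; have := p2 k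
  have e : y k ^ 2 * s k ^ 2 = (s k - p k ^ 2) * (1 + s k) ^ 2 := by
    rw [← q2, y]; field_simp
  have e2 : s k ^ 2 * (k + 4) = s k := by rw [sq, mul_assoc, sk, mul_one]
  have h1 : 0 ≤ s k - p k ^ 2 := by rw [← q2]; positivity
  constructor
  · refine le_of_mul_le_mul_right ?_ (pow_pos h0 2)
    rw [e]
    nlinarith [mul_nonneg h1 (by positivity : 0 ≤ 2 * s k + s k ^ 2)]
  · refine le_of_mul_le_mul_right ?_ (pow_pos h0 2)
    rw [e]
    have : (1 + s k) ^ 2 ≤ 2 := by nlinarith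
    nlinarith [mul_le_mul_of_nonneg_left this h1, sq_nonneg (p k)]
lemma mub (k : ℕ) : k + 3 ≤ mu k ∧ mu k ≤ y k ^ 2 := by
  have := s0 k; have := s1 k; have := pb k; have := xb k; have := y2 k
  unfold mu
  constructor <;> nlinarith
lemma wz (k : ℕ) : z k ^ 2 + mu k = w k := by
  have := s0 k
  apply Complex.ext
  · simp [z, w, mu, sq]
  · simp only [z, w, sq, add_im, mul_im, ofReal_im, x, y]
    field_simp
    ring
lemma zw (k : ℕ) : z k * w k = 1 - w k ^ 2 := by
  have h0 := s0 k; have := s1 k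
  have h1 : 1 - s k ^ 2 ≠ 0 := by nlinarith
  have hx : x k * s k = p k * (1 - s k) := by
    unfold x p
    have : 1 - s k ≠ 0 := by linarith
    rw [show 1 - s k ^ 2 = (1 - s k) * (1 + s k) by ring]
    field_simp
  have hy : y k * s k = q k * (1 + s k) := by unfold y; field_simp
  apply Complex.ext
  · simp only [z, w, sq, mul_re, sub_re, one_re]
    refine mul_right_cancel₀ h0.ne' ?_
    linear_combination p k * hx + q k * hy + q2 k
  · simp only [z, w, sq, mul_im, sub_im, one_im]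
    refine mul_right_cancel₀ h0.ne' ?_
    linear_combination (-q k) * hx + p k * hy

/-! ### the operators -/

def a (n : ℕ) : ℝ := mu (n / 2) + if n % 2 = 0 then 1 else -1
def σ (n : ℕ) : ℕ := if n % 2 = 0 then n + 1 else n - 1

lemma σσ (n : ℕ) : σ (σ n) = n := by unfold σ; split_ifs <;> omega
lemma ab (n : ℕ) : n / 2 + 1 ≤ a n := by
  have := (mub (n / 2)).1
  have h : (n : ℝ) ≤ 2 * (n / 2 : ℕ) + 1 := by exact_mod_cast (by omega : n ≤ 2 * (n / 2) + 1)
  unfold a
  split_ifs <;> linarith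
lemma a0 (n : ℕ) : 0 < a n := lt_of_lt_of_le (by positivity) (ab n)

def dom : Submodule ℂ H where
  carrier := {u | Memℓp (fun n => (a n : ℂ) * u n) 2}
  add_mem' {u v} hu hv := by
    have := Memℓp.add hu hv
    show Memℓp _ _
    convert this using 1
    funext n; simp [mul_add]
  zero_mem' := by
    show Memℓp _ _
    convert zero_memℓp using 1
    funext n; simp
  smul_mem' c u hu := by
    have := Memℓp.const_smul hu c
    show Memℓp _ _
    convert this using 1
    funext n; simp [mul_left_comm]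

def A : H →ₗ.[ℂ] H where
  domain := dom
  toFun :=
    { toFun := fun u => ⟨fun n => (a n : ℂ) * u.1 n, u.2⟩
      map_add' := fun u v => by ext n; exact mul_add _ _ _
      map_smul' := fun c u => by ext n; simp [mul_left_comm] }

lemma maps_iff (u v : H) : Maps A u v ↔ ∀ n, v n = a n * u n := by
  constructor
  · rintro ⟨h, rfl⟩ n; rfl
  · intro h
    have : Memℓp (fun n => (a n : ℂ) * u n) 2 := by
      rw [← funext h]; exact v.2
    exact ⟨this, lp.ext (funext fun n => (h n).symm)⟩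

lemma maps_e (n : ℕ) : Maps A (e n) ((a n : ℂ) • e n) := (maps_iff _ _).2 fun m => by
  rw [lp.coeFn_smul, Pi.smul_apply, e_apply]
  split_ifs with h <;> simp [h]

lemma dense : Dense (A.domain : Set H) := fun u => by
  refine mem_closure_of_tendsto (lp.hasSum_single (p := 2) (by norm_num) u)
    (Eventually.of_forall fun S => Submodule.sum_mem _ fun n _ => ?_)
  have : lp.single 2 n (u n) = u n • e n := by rw [e, ← lp.single_smul]; simp
  rw [this]
  exact Submodule.smul_mem _ _ (maps_e n).1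

lemma selfadj : IsSelfAdjoint A := by
  have h : A.IsFormalAdjoint A := fun u v => by
    rw [lp.inner_eq_tsum, lp.inner_eq_tsum]
    refine tsum_congr fun n => ?_
    show inner ℂ ((a n : ℂ) * u.1 n) (v.1 n) = inner ℂ (u.1 n) ((a n : ℂ) * v.1 n)
    simp; ring
  have le := h.le_adjoint dense
  refine (LinearPMap.eq_of_le_of_domain_eq le (le_antisymm le.1 fun u hu => ?_)).symm
  refine ((maps_iff u (A.adjoint ⟨u, hu⟩)).2 fun n => ?_).1
  have := (LinearPMap.adjoint_isFormalAdjoint dense).symm ⟨_, (maps_e n).1⟩ ⟨u, hu⟩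
  erw [(maps_e n).2, inner_smul_left] at this
  simpa [inner_e] using this.symm

lemma ip_sum (u v : H) (h : Maps A u v) : HasSum (fun n => a n * ‖u n‖ ^ 2) (ip v u).re := by
  have := Complex.hasSum_re (lp.hasSum_inner (𝕜 := ℂ) v u)
  refine HasSum.congr_fun this fun n => ?_ 
  symm
  rw [(maps_iff _ _).1 h]
  simp [mul_left_comm, Complex.mul_conj, Complex.normSq_eq_norm_sq]
  left
  norm_cast

lemma adm : Admissible A := by
  refine ⟨selfadj, fun u v h => (ip_sum u v h).nonneg fun n => by have := a0 n; positivity, ?_⟩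
  have h1 : ∀ n : ℕ, |1 / ((n : ℝ) / 2 + 1)| ≤ 1 := fun n => by
    rw [abs_of_pos (by positivity), div_le_one (by positivity)]
    linarith [(n.cast_nonneg : (0 : ℝ) ≤ n)]
  have h2 : ∀ n : ℕ, |((n : ℝ) / 2 + 1) / (a n + 1)| ≤ 1 := fun n => by
    have := a0 n
    rw [abs_of_pos (by positivity), div_le_one (by positivity)]
    linarith [ab n]
  have c := dg_compact _ h1 (tendsto_const_nhds.div_atTop (tendsto_atTop_add_const_right _ _
    (tendsto_natCast_atTop_atTop.atTop_div_const two_pos))) (fun m n h => by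
      have : (m : ℝ) ≤ n := by exact_mod_cast h
      exact one_div_le_one_div_of_le (by positivity) (by linarith)) fun n => by positivity
  refine ⟨(dg _ h2).comp (dg _ h1), c.clm_comp (dg _ h2), fun (u : H) =>
    (maps_iff _ _).2 fun n => ?_⟩
  show u n - dg _ h2 (dg _ h1 u) n = a n * dg _ h2 (dg _ h1 u) n
  rw [dg_apply, dg_apply]
  have : (a n : ℂ) + 1 ≠ 0 := by exact_mod_cast (by linarith [a0 n] : a n + 1 ≠ 0)
  have h3 : (((n : ℝ) / 2 + 1 : ℝ) : ℂ) ≠ 0 := ofReal_ne_zero.2 (by positivity)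
  rw [ofReal_div, ofReal_div 1]
  generalize (((n : ℝ) / 2 + 1 : ℝ) : ℂ) = c at h3
  push_cast
  field_simp
  ring

def σe : ℕ ≃ ℕ := ⟨σ, σ, σσ, σσ⟩

def SL : H →ₗ[ℂ] H where
  toFun u := ⟨fun n => u (σ n), (mem_iff _).2 (σe.summable_iff.2 (summ u))⟩
  map_add' _ _ := rfl
  map_smul' _ _ := rfl

def S : H →L[ℂ] H := SL.mkContinuous 1 fun u => by
  rw [one_mul]
  refine le_of_eq ((sq_eq_sq₀ (norm_nonneg _) (norm_nonneg _)).1 ?_)
  rw [normsq, normsq]
  exact σe.tsum_eq fun n => ‖u n‖ ^ 2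

def P : H →L[ℂ] H := (1 / 2 : ℂ) • (1 - S)

lemma P_apply (u : H) (n : ℕ) : P u n = (u n - u (σ n)) / 2 := by
  show (1 / 2 : ℂ) * (u n - u (σ n)) = _
  ring

lemma adjP : adj P = P := by
  have h : IsSelfAdjoint S := ContinuousLinearMap.isSelfAdjoint_iff_isSymmetric.2 fun u v => by
    rw [lp.inner_eq_tsum, lp.inner_eq_tsum, ← σe.tsum_eq]
    refine tsum_congr fun n => ?_
    show inner ℂ (u (σ (σ n))) (v (σ n)) = inner ℂ (u n) (v (σ n))
    rw [σσ]
  show star P = P
  simp [P, h.star_eq]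

lemma aσ (n : ℕ) : cexp (-I * a (σ n) * (Real.pi / 2 : ℝ)) = -cexp (-I * a n * (Real.pi / 2 : ℝ)) := by
  unfold σ
  split_ifs with h
  · rw [← Complex.exp_add_pi_mul_I]
    have : a (n + 1) = a n - 2 := by
      unfold a
      rw [if_pos h, if_neg (by omega), show (n + 1) / 2 = n / 2 by omega]; ring
    rw [this]; congr 1; push_cast; ring
  · rw [← Complex.exp_sub_pi_mul_I]
    have : a (n - 1) = a n + 2 := by
      unfold a
      rw [if_neg h, if_pos (by omega), show (n - 1) / 2 = n / 2 by omega]; ring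
    rw [this]; congr 1; push_cast; ring

lemma obs : Observable A P Real.pi := by
  refine ⟨2 / Real.pi, by positivity, fun (u : ℝ → H) ⟨hc, hu⟩ => ?_⟩
  have ode : ∀ n t, u t n = cexp (-I * a n * t) * u 0 n := fun n t => by
    have d : ∀ t : ℝ, HasDerivAt (fun t : ℝ => cexp (I * a n * t) * u t n) 0 t := fun t => by
      have h1 := hu _ _ (maps_e n) t
      simp only [ip] at h1
      erw [inner_smul_left] at h1
      have h2 : HasDerivAt (fun t => u t n) (-I * (a n * u t n)) t := by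
        erw [inner_e n (u t)] at h1
        have e1 : ∀ v : H, inner ℂ (show X from e n) v = v n := inner_e n
        simpa [e1] using h1
      have h3 := (((hasDerivAt_id' t).ofReal_comp.const_mul (I * a n)).cexp).fun_mul h2
      refine h3.congr_deriv ?_
      simp; ring
    have := is_const_of_deriv_eq_zero (fun t => (d t).differentiableAt) (fun t => (d t).deriv) t 0
    have h4 : cexp (I * a n * t) * u t n = u 0 n := by simpa using this
    rw [← h4, ← mul_assoc, ← Complex.exp_add]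
    simp
  have nr : ∀ n (t : ℝ), ‖cexp (-I * a n * t)‖ = 1 := fun n t => by
    rw [Complex.norm_exp]; simp
  have key : ∀ t, ‖P (u t)‖ ^ 2 + ‖P (u (t + Real.pi / 2))‖ ^ 2 = ‖u 0‖ ^ 2 := fun t => by
    have e2 : ∀ n, u (t + Real.pi / 2) n = cexp (-I * a n * (Real.pi / 2 : ℝ)) * u t n := fun n => by
      rw [ode n (t + _), ode n t, ← mul_assoc, ← Complex.exp_add]
      congr 2; push_cast; ring
    have s1 := (summ (u 0)).hasSum
    have s2 := σe.hasSum_iff.2 s1
    have s3 := (summ (P (u t))).hasSum.add (summ (P (u (t + Real.pi / 2)))).hasSum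
    rw [← normsq] at s1 s2
    rw [← normsq, ← normsq] at s3
    have s4 := (s1.add s2).div_const 2
    rw [add_self_div_two] at s4
    refine s3.unique (HasSum.congr_fun s4 fun n => ?_)
    rw [P_apply, P_apply, e2, e2, aσ, neg_mul (cexp _), sub_neg_eq_add, ← mul_add, norm_div, norm_div,
      norm_mul, nr]
    have := parallelogram_law_with_norm ℂ (u t n) (u t (σ n))
    have b1 : ‖u t n‖ = ‖u 0 n‖ := by rw [ode, norm_mul, nr, one_mul]
    have b2 : ‖u t (σ n)‖ = ‖u 0 (σ n)‖ := by rw [ode, norm_mul, nr, one_mul]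
    show _ = (‖u 0 n‖ ^ 2 + ‖u 0 (σ n)‖ ^ 2) / 2
    rw [← b1, ← b2, Complex.norm_two]
    linarith
  have cg : Continuous fun t => ‖P (u t)‖ ^ 2 := (P.continuous.comp hc).norm.pow 2
  rw [adjP]
  have e3 : ∫ t in (0 : ℝ)..Real.pi, ‖P (u t)‖ ^ 2 = Real.pi / 2 * ‖u 0‖ ^ 2 := by
    rw [← intervalIntegral.integral_add_adjacent_intervals (b := Real.pi / 2)
      (cg.intervalIntegrable _ _) (cg.intervalIntegrable _ _)]
    have := intervalIntegral.integral_comp_add_right (a := 0) (b := Real.pi / 2)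
      (fun t => ‖P (u t)‖ ^ 2) (Real.pi / 2)
    rw [zero_add, add_halves] at this
    rw [← this, ← intervalIntegral.integral_add (cg.intervalIntegrable _ _)
      (Continuous.intervalIntegrable (u := fun t => ‖P (u (t + Real.pi / 2))‖ ^ 2)
        (cg.comp (continuous_add_right _)) _ _)]
    simp only [key]
    simp
  show ‖u 0‖ ^ 2 ≤ _ * ∫ t in (0 : ℝ)..Real.pi, ‖P (u t)‖ ^ 2
  rw [e3]
  exact le_of_eq (by field_simp)

def v0 (k : ℕ) : H := (1 - w k) • e (2 * k) + (1 + w k) • e (2 * k + 1)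
def av (k : ℕ) : H := ((mu k + 1) * (1 - w k)) • e (2 * k) + ((mu k - 1) * (1 + w k)) • e (2 * k + 1)

lemma v0_apply (k n : ℕ) : v0 k n = if n = 2 * k then 1 - w k else if n = 2 * k + 1 then 1 + w k
    else 0 := by
  show (1 - w k) * e (2 * k) n + (1 + w k) * e (2 * k + 1) n = _
  rw [e_apply, e_apply]
  split_ifs <;> first | omega | simp

lemma av_apply (k n : ℕ) : av k n = if n = 2 * k then (mu k + 1) * (1 - w k) else
    if n = 2 * k + 1 then (mu k - 1) * (1 + w k) else 0 := by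
  show _ * e (2 * k) n + _ * e (2 * k + 1) n = _
  rw [e_apply, e_apply]
  split_ifs <;> first | omega | simp

lemma maps_v (k : ℕ) (c : ℂ) : Maps A (c • v0 k) (c • av k) := (maps_iff _ _).2 fun n => by
  show c * av k n = a n * (c * v0 k n)
  rw [av_apply, v0_apply]
  split_ifs with h1 h2
  · rw [h1, a, if_pos (by omega), show 2 * k / 2 = k by omega]; push_cast; ring
  · rw [h2, a, if_neg (by omega), show (2 * k + 1) / 2 = k by omega]; push_cast; ring
  · simp

lemma eig (k : ℕ) : av k + z k • P (P (v0 k)) = -(z k ^ 2) • v0 k := by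
  ext n
  show av k n + z k * P (P (v0 k)) n = -(z k ^ 2) * v0 k n
  rw [P_apply, P_apply, P_apply, σσ, av_apply, v0_apply, v0_apply]
  have h1 := wz k
  have h2 := zw k
  by_cases c1 : n = 2 * k
  · have : σ n = 2 * k + 1 := by unfold σ; split_ifs <;> omega
    rw [this, if_pos c1, if_pos c1, if_neg (by omega), if_pos rfl]
    linear_combination (1 - w k) * h1 - h2
  by_cases c2 : n = 2 * k + 1
  · have : σ n = 2 * k := by unfold σ; split_ifs <;> omega
    rw [this, if_neg c1, if_pos c2, if_neg c1, if_pos c2, if_pos rfl]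
    linear_combination (1 + w k) * h1 + h2
  have c3 : σ n ≠ 2 * k := by unfold σ; split_ifs <;> omega
  have c4 : σ n ≠ 2 * k + 1 := by unfold σ; split_ifs <;> omega
  simp [c1, c2, c3, c4]

lemma q_le (k : ℕ) (c : ℂ) : (ip (c • av k) (c • v0 k)).re ≤ (mu k + 1) * ‖c • v0 k‖ ^ 2 := by
  have h := (summ (c • v0 k)).hasSum.mul_left (mu k + 1)
  rw [← normsq] at h
  refine hasSum_le (fun n => ?_) (ip_sum _ _ (maps_v k c)) h
  by_cases hn : n / 2 = k
  · refine mul_le_mul_of_nonneg_right ?_ (by positivity)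
    unfold a; rw [hn]; split_ifs <;> linarith
  · have : (c • v0 k) n = 0 := by
      show c * v0 k n = 0
      rw [v0_apply, if_neg (by omega), if_neg (by omega), mul_zero]
    simp [this]

lemma v0_pos (k : ℕ) : 0 < ‖v0 k‖ := norm_pos_iff.2 fun h => by
  have h1 := v0_apply k (2 * k)
  have h2 := v0_apply k (2 * k + 1)
  rw [h, if_pos rfl] at h1
  rw [h, if_neg (by omega), if_pos rfl] at h2
  have : (2 : ℂ) = 0 := by
    have e : ∀ n, (0 : H) n = 0 := fun _ => rfl
    rw [e] at h1 h2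
    linear_combination -h1 - h2
  norm_num at this

lemma wave (k : ℕ) : Wave A P (fun t => cexp (z k * t) • v0 k)
    (fun t => (z k * cexp (z k * t)) • v0 k) (fun t => cexp (z k * t) • av k) := fun t => by
  have d : HasDerivAt (fun t : ℝ => cexp (z k * t)) (z k * cexp (z k * t)) t := by
    refine (((hasDerivAt_id' t).ofReal_comp.const_mul (z k)).cexp).congr_deriv ?_
    simp; ring
  refine ⟨maps_v k _, d.smul_const (v0 k), ?_⟩
  refine ((d.const_mul (z k)).smul_const (v0 k)).congr_deriv ?_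
  rw [adjP]
  show (_ : H) = -(cexp (z k * t) • av k) - P (P ((z k * cexp (z k * t)) • v0 k))
  rw [map_smul, map_smul, eq_sub_of_add_eq (eig k)]
  module

lemma lower (f : ℝ → ℝ) (h : Stable A P f) :
    ∃ C, ∀ k : ℕ, 1 / 20 ≤ C * (√(k + 4) * f (k + 4)) := by
  obtain ⟨C, hC⟩ := h
  refine ⟨C, fun k => ?_⟩
  have t0 : (0 : ℝ) < k + 4 := by positivity
  have := hC _ _ _ ((z k * cexp (z k * (0 : ℝ))) • av k) (wave k) (maps_v k _) (k + 4) t0
  simp only [ofReal_zero, mul_zero, exp_zero, mul_one, one_smul, en, adjP] at this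
  have N := v0_pos k
  have z2 : ‖z k‖ ^ 2 = x k ^ 2 + y k ^ 2 := by rw [Complex.sq_norm, z, normSq_mk]; ring
  have x2 : x k ^ 2 ≤ 1 := by have := xb k; have := s1 k; nlinarith
  have hy := y2 k
  have hm := mub k
  have k0 : (0 : ℝ) ≤ k := k.cast_nonneg
  have Z1 : mu k ≤ ‖z k‖ ^ 2 := by nlinarith
  have Z2 : 1 ≤ ‖z k‖ ^ 2 := by nlinarith
  have Z3 : ‖z k‖ ^ 2 ≤ 9 / 4 * (k + 4) := by nlinarith
  have l1 : 1 / 2 * (‖z k‖ * ‖v0 k‖) ≤ √((ip (cexp (z k * ((k : ℝ) + 4 : ℝ)) • av k)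
      (cexp (z k * ((k : ℝ) + 4 : ℝ)) • v0 k)).re +
      ‖(z k * cexp (z k * ((k : ℝ) + 4 : ℝ))) • v0 k‖ ^ 2) := by
    refine Real.le_sqrt_of_sq_le (le_add_of_nonneg_of_le (adm.2.1 _ _ (maps_v k _)) ?_)
    refine pow_le_pow_left₀ (by positivity) ?_ 2
    rw [norm_smul, norm_mul, Complex.norm_exp]
    have : 1 / 2 ≤ Real.exp (z k * ((k : ℝ) + 4 : ℝ)).re := by
      refine le_trans ?_ (Real.add_one_le_exp _)
      have e : (z k * ((k : ℝ) + 4 : ℝ)).re = x k * (k + 4) := by rw [re_mul_ofReal]; rfl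
      rw [e]
      nlinarith [(xb k).1, sk k]
    nlinarith [mul_le_mul_of_nonneg_left this (by positivity : 0 ≤ ‖z k‖ * ‖v0 k‖)]
  have l2 : √((ip (av k) (v0 k)).re + ‖z k • v0 k‖ ^ 2 + ‖v0 k‖ ^ 2 +
      ((ip (z k • av k) (z k • v0 k)).re + ‖av k + P (P (z k • v0 k))‖ ^ 2) + ‖z k • v0 k‖ ^ 2) ≤
      3 * (‖z k‖ ^ 2 * ‖v0 k‖) := by
    refine Real.sqrt_le_iff.2 ⟨by positivity, ?_⟩
    have b1 := q_le k 1
    have b2 := q_le k (z k)
    rw [one_smul, one_smul] at b1
    rw [map_smul, map_smul, eig, norm_smul, norm_smul, norm_neg, norm_pow]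
    rw [norm_smul] at b2
    generalize ‖z k‖ = Z at *
    generalize ‖v0 k‖ = V at *
    have V2 : 0 < V ^ 2 := by positivity
    have c1 : mu k + 1 ≤ 2 * Z ^ 2 := by linarith
    have c2 : Z ^ 2 ≤ Z ^ 2 * Z ^ 2 := by nlinarith
    nlinarith [mul_le_mul_of_nonneg_right c1 V2.le, mul_le_mul_of_nonneg_right c2 V2.le,
      mul_le_mul_of_nonneg_right c1 (by positivity : 0 ≤ (Z * V) ^ 2),
      mul_le_mul_of_nonneg_right Z2 V2.le]
  have l3 := l1.trans this
  have zp : 0 < ‖z k‖ := by nlinarith [norm_nonneg (z k)]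
  have cf : 0 < C * f (k + 4) := by
    by_contra hn
    have := mul_nonpos_of_nonpos_of_nonneg (not_lt.1 hn) (Real.sqrt_nonneg ((ip (av k) (v0 k)).re +
      ‖z k • v0 k‖ ^ 2 + ‖v0 k‖ ^ 2 + ((ip (z k • av k) (z k • v0 k)).re +
      ‖av k + P (P (z k • v0 k))‖ ^ 2) + ‖z k • v0 k‖ ^ 2))
    have := l3.trans this
    nlinarith [mul_pos zp N]
  have l4 := l3.trans (mul_le_mul_of_nonneg_left l2 cf.le)
  have l5 : 1 / 6 ≤ C * f (k + 4) * ‖z k‖ :=
    le_of_mul_le_mul_right (by nlinarith) (mul_pos zp N)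
  have l6 : ‖z k‖ ≤ 3 / 2 * √(k + 4) := by
    refine (sq_le_sq₀ (by positivity) (by positivity)).1 ?_
    rw [mul_pow, Real.sq_sqrt t0.le]; linarith
  nlinarith [mul_le_mul_of_nonneg_left l6 cf.le]

theorem result : ∃ (A : Unb) (B : Bdd), Admissible A ∧ Observable A B Real.pi ∧
    (∀ f : ℝ → ℝ, Tendsto (fun t => √t * f t) atTop (𝓝 0) → ¬ Stable A B f) ∧
    ∀ α : ℝ, 1 / 2 < α → ¬ Stable A B fun t => t ^ (-α) := by
  have h : ∀ f : ℝ → ℝ, Tendsto (fun t => √t * f t) atTop (𝓝 0) → ¬ Stable A P f :=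
    fun f hf hs => by
      obtain ⟨C, hC⟩ := lower f hs
      have := (hf.comp (tendsto_atTop_add_const_right _ 4
        (tendsto_natCast_atTop_atTop (R := ℝ)))).const_mul C
      have := ge_of_tendsto' this hC
      norm_num at this
  refine ⟨A, P, adm, obs, h, fun α hα => h _ ?_⟩
  refine (tendsto_rpow_neg_atTop (by linarith : 0 < α - 1 / 2)).congr' ?_
  filter_upwards [eventually_gt_atTop 0] with t ht
  rw [Real.sqrt_eq_rpow, ← Real.rpow_add ht]
  congr 1; ring

end Pool.Agent.Results.MP_4ccfbf_an.Optimal
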